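import Pool.Agent.AltGenus.Main

namespace Pool.Agent.Results.MP_55d555_gt.AltGenusUnbounded

open AltGenus

/-- Sanity check: the notion is not vacuous, the round unknot has such a diagram of genus `0`. -/
theorem unknot_has_diagram : ∃ K : Link 1, HasAltDiagram K 0 := Sanity.unknot_zero

/-- `hopfLink (N + 1)` consists of `2N + 2` fibres of the Hopf fibration of `S³`. -/
theorem result (N : ℕ) : (N : ℕ∞) ≤ gAlt (hopfLink (N + 1)) := by
  unfold gAlt
  refine le_iInf fun g => le_iInf fun hg => ?_
  by_contra hlt
  have h1 : g < N := by
    have h2 := not_le.1 hlt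
    exact_mod_cast h2
  exact hopf_contra (by omega) hg

end Pool.Agent.Results.MP_55d555_gt.AltGenusUnbounded
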