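import Pool.Agent.Helper562.AltG.FinalP

set_option autoImplicit false

namespace Pool.Agent.Results.MP_55d555_gt.TorusLinks

open AltGenus562

/-- For every `N` the torus link `T(2n,2n)`, `n = 4N+1`, is a link whose alternating genus is at
least `N`. -/
theorem result (N : ℕ) :
    IsLink (torusLink (4 * N + 1)) ∧ AltGenusAtLeast (torusLink (4 * N + 1)) N :=
  ⟨isLink_torusLink _ (Nat.succ_pos _), altGenus_torusLink N⟩

end Pool.Agent.Results.MP_55d555_gt.TorusLinks
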